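import Pool.Agent.H14R3.KK.Defs

/-! Task WEAK of project KK (MP_d47e08_pr) (helper311). -/

set_option autoImplicit false
open MeasureTheory ProbabilityTheory Filter Topology

namespace KK14

namespace WEAKx

theorem mem_of {n : ℕ} {I J : Finset (Fin n)} {a b : Fin n} (hc : I.card = J.card)
    (hab : symmDiff I J = {a, b}) (ha : a ∈ I) : b ∈ J := by
  have h1 : (I \ J).card = (J \ I).card := by
    have h2 := Finset.card_sdiff_add_card_inter I J
    have h3 := Finset.card_sdiff_add_card_inter J I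
    rw [Finset.inter_comm] at h3
    omega
  have haS : a ∈ symmDiff I J := by rw [hab]; simp
  have haJ : a ∉ J := by
    rw [Finset.mem_symmDiff] at haS
    tauto
  have ha2 : a ∈ I \ J := Finset.mem_sdiff.mpr ⟨ha, haJ⟩
  have h4 : 0 < (J \ I).card := by
    rw [← h1]
    exact Finset.card_pos.mpr ⟨a, ha2⟩
  obtain ⟨c, hc2⟩ := Finset.card_pos.mp h4
  have hcS : c ∈ symmDiff I J := by
    rw [Finset.mem_symmDiff]
    exact Or.inr (Finset.mem_sdiff.mp hc2)
  rw [hab, Finset.mem_insert, Finset.mem_singleton] at hcS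
  rcases hcS with h | h
  · exfalso
    rw [h] at hc2
    exact (Finset.mem_sdiff.mp hc2).2 ha
  · rw [← h]
    exact (Finset.mem_sdiff.mp hc2).1

/-- weight of the sets that contain `a` -/
noncomputable def g {n l : ℕ} (v : Sub n l → ℝ) (a : Fin n) : ℝ :=
  ∑ I : Sub n l, if a ∈ I.1 then v I ^ 2 else 0

theorem g_nonneg {n l : ℕ} (v : Sub n l → ℝ) (a : Fin n) : 0 ≤ g v a := by
  unfold g
  apply Finset.sum_nonneg
  intro I _
  split_ifs <;> positivity

theorem sum_g {n l : ℕ} (v : Sub n l → ℝ) : ∑ a, g v a = l * ∑ I, v I ^ 2 := by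
  unfold g
  rw [Finset.sum_comm, Finset.mul_sum]
  apply Finset.sum_congr rfl
  intro I _
  rw [← Finset.sum_filter, Finset.sum_const, nsmul_eq_mul]
  congr 1
  have : Finset.univ.filter (fun a => a ∈ I.1) = I.1 := by ext; simp
  rw [this, I.2]

/-- Cauchy–Schwarz on a set of pairs -/
theorem cs {n l : ℕ} (v : Sub n l → ℝ) (S : Finset (Fin n)) (a b : Fin n)
    (P : Finset (Sub n l × Sub n l)) (hP : ∀ p ∈ P, symmDiff p.1.1 p.2.1 = S ∧ a ∈ p.1.1 ∧
      b ∈ p.2.1) : (∑ p ∈ P, v p.1 * v p.2) ^ 2 ≤ g v a * g v b := by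
  classical
  have h1 : ∑ p ∈ P, v p.1 ^ 2 ≤ g v a := by
    have hinj : Set.InjOn (fun p : Sub n l × Sub n l => p.1) P := by
      intro p hp q hq hpq
      have h2 := (hP p hp).1
      have h3 := (hP q hq).1
      have h4 : p.1 = q.1 := hpq
      rw [h4] at h2
      have h5 : p.2.1 = q.2.1 := symmDiff_right_injective q.1.1 (h2.trans h3.symm)
      exact Prod.ext h4 (Subtype.ext h5)
    have h6 : ∑ p ∈ P, v p.1 ^ 2 = ∑ I ∈ P.image (fun p : Sub n l × Sub n l => p.1), v I ^ 2 := by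
      rw [Finset.sum_image hinj]
    rw [h6, g, ← Finset.sum_filter]
    apply Finset.sum_le_sum_of_subset_of_nonneg
    · intro I hI
      obtain ⟨p, hp, rfl⟩ := Finset.mem_image.mp hI
      exact Finset.mem_filter.mpr ⟨Finset.mem_univ _, (hP p hp).2.1⟩
    · intro I _ _
      positivity
  have h2 : ∑ p ∈ P, v p.2 ^ 2 ≤ g v b := by
    have hinj : Set.InjOn (fun p : Sub n l × Sub n l => p.2) P := by
      intro p hp q hq hpq
      have h2 := (hP p hp).1
      have h3 := (hP q hq).1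
      have h4 : p.2 = q.2 := hpq
      rw [h4] at h2
      have h5 : p.1.1 = q.1.1 := symmDiff_left_injective q.2.1 (h2.trans h3.symm)
      exact Prod.ext (Subtype.ext h5) h4
    have h6 : ∑ p ∈ P, v p.2 ^ 2 = ∑ I ∈ P.image (fun p : Sub n l × Sub n l => p.2), v I ^ 2 := by
      rw [Finset.sum_image hinj]
    rw [h6, g, ← Finset.sum_filter]
    apply Finset.sum_le_sum_of_subset_of_nonneg
    · intro I hI
      obtain ⟨p, hp, rfl⟩ := Finset.mem_image.mp hI
      exact Finset.mem_filter.mpr ⟨Finset.mem_univ _, (hP p hp).2.2⟩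
    · intro I _ _
      positivity
  refine (Finset.sum_mul_sq_le_sq_mul_sq P (fun p => v p.1) (fun p => v p.2)).trans ?_
  exact mul_le_mul h1 h2 (Finset.sum_nonneg fun _ _ => by positivity) (g_nonneg v a)

theorem inner {n l : ℕ} (v : Sub n l → ℝ) (S : Finset (Fin n)) (a b : Fin n) (hS : S = {a, b}) :
    (∑ I : Sub n l, ∑ J : Sub n l, if symmDiff I.1 J.1 = S then v I * v J else 0) ^ 2 ≤
      4 * (g v a * g v b) := by
  classical
  have e1 : (∑ I : Sub n l, ∑ J : Sub n l, if symmDiff I.1 J.1 = S then v I * v J else 0) =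
      ∑ p ∈ (Finset.univ : Finset (Sub n l × Sub n l)).filter
        (fun p => symmDiff p.1.1 p.2.1 = S), v p.1 * v p.2 := by
    rw [Finset.sum_filter, ← Finset.univ_product_univ, Finset.sum_product]
  rw [e1, ← Finset.sum_filter_add_sum_filter_not _ (fun p : Sub n l × Sub n l => a ∈ p.1.1)]
  have h1 := cs v S a b (((Finset.univ : Finset (Sub n l × Sub n l)).filter
        (fun p => symmDiff p.1.1 p.2.1 = S)).filter (fun p => a ∈ p.1.1)) (by
    intro p hp
    rw [Finset.mem_filter, Finset.mem_filter] at hp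
    refine ⟨hp.1.2, hp.2, ?_⟩
    exact mem_of (by rw [p.1.2, p.2.2]) (hp.1.2.trans hS) hp.2)
  have h2 := cs v S b a (((Finset.univ : Finset (Sub n l × Sub n l)).filter
        (fun p => symmDiff p.1.1 p.2.1 = S)).filter (fun p => ¬ a ∈ p.1.1)) (by
    intro p hp
    rw [Finset.mem_filter, Finset.mem_filter] at hp
    have haS : a ∈ symmDiff p.1.1 p.2.1 := by rw [hp.1.2, hS]; simp
    have haJ : a ∈ p.2.1 := by
      rw [Finset.mem_symmDiff] at haS
      have := hp.2
      tauto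
    refine ⟨hp.1.2, ?_, haJ⟩
    exact mem_of (I := p.2.1) (J := p.1.1) (by rw [p.1.2, p.2.2])
      (by rw [symmDiff_comm]; exact hp.1.2.trans hS) haJ)
  nlinarith [sq_nonneg ((∑ p ∈ ((Finset.univ : Finset (Sub n l × Sub n l)).filter
        (fun p => symmDiff p.1.1 p.2.1 = S)).filter (fun p => a ∈ p.1.1), v p.1 * v p.2) -
      (∑ p ∈ ((Finset.univ : Finset (Sub n l × Sub n l)).filter
        (fun p => symmDiff p.1.1 p.2.1 = S)).filter (fun p => ¬ a ∈ p.1.1), v p.1 * v p.2))]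

end WEAKx

theorem WEAK (n l : ℕ) (v : Sub n l → ℝ) (hv : ∑ I, v I ^ 2 = 1) :
    ∑ S : Sub n 2, (∑ I, ∑ J, if symmDiff I.1 J.1 = S.1 then v I * v J else 0) ^ 2 ≤
      4 * (l : ℝ) ^ 2 := by
  classical
  have hex : ∀ S : Sub n 2, ∃ p : Fin n × Fin n, S.1 = {p.1, p.2} := by
    intro S
    obtain ⟨a, b, -, h⟩ := Finset.card_eq_two.mp S.2
    exact ⟨(a, b), h⟩
  choose f hf using hex
  have h1 : ∀ S ∈ (Finset.univ : Finset (Sub n 2)),
      (∑ I : Sub n l, ∑ J : Sub n l, if symmDiff I.1 J.1 = S.1 then v I * v J else 0) ^ 2 ≤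
      4 * (WEAKx.g v (f S).1 * WEAKx.g v (f S).2) :=
    fun S _ => WEAKx.inner v S.1 _ _ (hf S)
  refine (Finset.sum_le_sum h1).trans ?_
  rw [← Finset.mul_sum]
  have hinj : Set.InjOn f (Finset.univ : Finset (Sub n 2)) := by
    intro S _ S' _ h
    apply Subtype.ext
    rw [hf S, hf S', h]
  have h2 : ∑ S : Sub n 2, WEAKx.g v (f S).1 * WEAKx.g v (f S).2 ≤
      ∑ p : Fin n × Fin n, WEAKx.g v p.1 * WEAKx.g v p.2 := by
    have h3 : ∑ S : Sub n 2, WEAKx.g v (f S).1 * WEAKx.g v (f S).2 =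
        ∑ p ∈ (Finset.univ : Finset (Sub n 2)).image f, WEAKx.g v p.1 * WEAKx.g v p.2 := by
      rw [Finset.sum_image hinj]
    rw [h3]
    apply Finset.sum_le_sum_of_subset_of_nonneg (Finset.subset_univ _)
    intro p _ _
    exact mul_nonneg (WEAKx.g_nonneg v _) (WEAKx.g_nonneg v _)
  have h4 : ∑ p : Fin n × Fin n, WEAKx.g v p.1 * WEAKx.g v p.2 = (l : ℝ) ^ 2 := by
    rw [← Finset.univ_product_univ, Finset.sum_product]
    have h5 : ∀ a : Fin n, ∑ b : Fin n, WEAKx.g v a * WEAKx.g v b = WEAKx.g v a * l := by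
      intro a
      rw [← Finset.mul_sum, WEAKx.sum_g, hv, mul_one]
    simp only [h5]
    rw [← Finset.sum_mul, WEAKx.sum_g, hv]
    ring
  linarith

end KK14
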